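import Pool.Agent.W941.MG.Stm

set_option autoImplicit false

namespace Pool.Agent.W507.MG

open Pool.Agent.W941.MG

/-- the vector of residues of a digit vector -/
def toV (K d D : ℕ) (u : Fin d → Fin D) : Fin d → ZMod (K * D + 1) := fun i => ((u i : ℕ) : ZMod (K * D + 1))

theorem cast_inj {q a b : ℕ} (ha : a < q) (hb : b < q) (h : (a : ZMod q) = (b : ZMod q)) : a = b := by
  have := (ZMod.natCast_eq_natCast_iff' a b q).1 h
  rwa [Nat.mod_eq_of_lt ha, Nat.mod_eq_of_lt hb] at this

theorem toV_inj (K d D : ℕ) (hK : 1 ≤ K) : Function.Injective (toV K d D) := by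
  intro u v h
  funext i
  have h1 := congrFun h i
  apply Fin.ext
  have hu := (u i).2
  have hv := (v i).2
  have hq : D ≤ K * D := Nat.le_mul_of_pos_left D hK
  exact cast_inj (q := K * D + 1) (by omega) (by omega) h1

theorem avg : AvgStmt := by
  classical
  intro K d D hK hd hD
  let S : (Fin d → Fin D) → ℕ := fun u => ∑ i, (u i : ℕ) ^ 2
  have hS : ∀ u, S u < d * D ^ 2 + 1 := by
    intro u
    have : S u ≤ ∑ _i : Fin d, D ^ 2 := by
      apply Finset.sum_le_sum
      intro i _
      exact Nat.pow_le_pow_left (le_of_lt (u i).2) 2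
    simp only [Finset.sum_const, Finset.card_univ, Fintype.card_fin, smul_eq_mul] at this
    omega
  have hSc : ∀ u : Fin d → Fin D, ((S u : ℕ) : ℤ) = ∑ i, ((u i : ℕ) : ℤ) ^ 2 := by
    intro u
    simp only [S, Nat.cast_sum, Nat.cast_pow]
  -- pigeonhole
  obtain ⟨R, hR, hcard⟩ : ∃ R ∈ Finset.range (d * D ^ 2 + 1),
      D ^ d ≤ (Finset.univ.filter fun u : Fin d → Fin D => S u = R).card * (d * D ^ 2 + 1) := by
    by_contra hcon
    push Not at hcon
    have h1 : (Finset.univ : Finset (Fin d → Fin D)).card =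
        ∑ R ∈ Finset.range (d * D ^ 2 + 1),
          (Finset.univ.filter fun u : Fin d → Fin D => S u = R).card :=
      Finset.card_eq_sum_card_fiberwise (fun u _ => by simpa using hS u)
    have h2 : (Finset.univ : Finset (Fin d → Fin D)).card = D ^ d := by
      simp [Finset.card_univ]
    have h3 : (∑ R ∈ Finset.range (d * D ^ 2 + 1),
        (Finset.univ.filter fun u : Fin d → Fin D => S u = R).card * (d * D ^ 2 + 1)) <
        ∑ R ∈ Finset.range (d * D ^ 2 + 1), D ^ d := by
      apply Finset.sum_lt_sum_of_nonempty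
      · exact ⟨0, by simp⟩
      · intro R hR
        exact hcon R hR
    rw [← Finset.sum_mul, ← h1, h2] at h3
    simp only [Finset.sum_const, Finset.card_range, smul_eq_mul] at h3
    rw [mul_comm] at h3
    exact lt_irrefl _ h3
  refine ⟨(Finset.univ.filter fun u : Fin d → Fin D => S u = R).image (toV K d D), ?_, ?_⟩
  · intro y z hy hz hsum
    have hy' : ∀ j, ∃ u : Fin d → Fin D, S u = R ∧ toV K d D u = y j := by
      intro j
      have := hy j
      rw [Finset.mem_image] at this
      obtain ⟨u, hu, he⟩ := this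
      exact ⟨u, by simpa using hu, he⟩
    choose u hu hue using hy'
    rw [Finset.mem_image] at hz
    obtain ⟨v, hv, hve⟩ := hz
    have hv : S v = R := by simpa using hv
    have key : ∀ i, ∑ j, (u j i : ℕ) = K * (v i : ℕ) := by
      intro i
      have h1 := congrFun hsum i
      rw [Finset.sum_apply] at h1
      have h2 : ((∑ j, (u j i : ℕ) : ℕ) : ZMod (K * D + 1)) = ((K * (v i : ℕ) : ℕ) : ZMod (K * D + 1)) := by
        push_cast
        rw [← hve] at h1
        have h3 : ∀ j, y j i = ((u j i : ℕ) : ZMod (K * D + 1)) := by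
          intro j
          rw [← hue j]
          rfl
        simp only [h3] at h1
        rw [h1]
        simp [toV]
      apply cast_inj _ _ h2
      · have : ∑ j, (u j i : ℕ) ≤ ∑ _j : Fin K, D :=
          Finset.sum_le_sum fun j _ => le_of_lt (u j i).2
        simp only [Finset.sum_const, Finset.card_univ, Fintype.card_fin, smul_eq_mul] at this
        omega
      · have : K * (v i : ℕ) ≤ K * D := Nat.mul_le_mul_left K (le_of_lt (v i).2)
        omega
    have hz0 : ∑ j, ∑ i, (((u j i : ℕ) : ℤ) - ((v i : ℕ) : ℤ)) ^ 2 = 0 := by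
      have e1 : ∀ j, ∑ i, (((u j i : ℕ) : ℤ) - ((v i : ℕ) : ℤ)) ^ 2 =
          (R : ℤ) - 2 * ∑ i, ((u j i : ℕ) : ℤ) * ((v i : ℕ) : ℤ) + R := by
        intro j
        have a1 : (R : ℤ) = ∑ i, ((u j i : ℕ) : ℤ) ^ 2 := by
          rw [← hu j]; exact hSc _
        have a2 : (R : ℤ) = ∑ i, ((v i : ℕ) : ℤ) ^ 2 := by
          rw [← hv]; exact hSc _
        have a3 : ∑ i, (((u j i : ℕ) : ℤ) - ((v i : ℕ) : ℤ)) ^ 2 =
            ∑ i, ((u j i : ℕ) : ℤ) ^ 2 - 2 * ∑ i, ((u j i : ℕ) : ℤ) * ((v i : ℕ) : ℤ) +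
              ∑ i, ((v i : ℕ) : ℤ) ^ 2 := by
          rw [Finset.mul_sum, ← Finset.sum_sub_distrib, ← Finset.sum_add_distrib]
          apply Finset.sum_congr rfl
          intro i _
          ring
        rw [a3, ← a1, ← a2]
      rw [Finset.sum_congr rfl (fun j _ => e1 j), Finset.sum_add_distrib, Finset.sum_sub_distrib,
        ← Finset.mul_sum, Finset.sum_comm]
      have e2 : ∀ i, ∑ j, ((u j i : ℕ) : ℤ) * ((v i : ℕ) : ℤ) = K * ((v i : ℕ) : ℤ) ^ 2 := by
        intro i
        rw [← Finset.sum_mul]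
        have := key i
        have h4 : (∑ j, ((u j i : ℕ) : ℤ)) = K * ((v i : ℕ) : ℤ) := by exact_mod_cast this
        rw [h4]
        ring
      rw [Finset.sum_congr rfl (fun i _ => e2 i), ← Finset.mul_sum]
      have a2 : (R : ℤ) = ∑ i, ((v i : ℕ) : ℤ) ^ 2 := by
        rw [← hv]; exact hSc _
      rw [← a2]
      simp only [Finset.sum_const, Finset.card_univ, Fintype.card_fin, nsmul_eq_mul]
      ring
    have hj : ∀ j, ∑ i, (((u j i : ℕ) : ℤ) - ((v i : ℕ) : ℤ)) ^ 2 = 0 := by
      intro j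
      have := (Finset.sum_eq_zero_iff_of_nonneg
        (fun j _ => Finset.sum_nonneg fun i _ => sq_nonneg _)).1 hz0 j (Finset.mem_univ j)
      exact this
    intro j
    rw [← hue j, ← hve]
    congr 1
    funext i
    have := (Finset.sum_eq_zero_iff_of_nonneg (fun i _ => sq_nonneg _)).1 (hj j) i
      (Finset.mem_univ i)
    have h5 : ((u j i : ℕ) : ℤ) - ((v i : ℕ) : ℤ) = 0 := by
      exact pow_eq_zero_iff (two_ne_zero) |>.1 this
    apply Fin.ext
    omega
  · rw [Finset.card_image_of_injective _ (toV_inj K d D hK)]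
    exact hcard

end Pool.Agent.W507.MG
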